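import Pool.Agent.MP_ecfd11_lc.H3G.Sys

/-!
Strong embeddings inside HOD.
-/

set_option synthInstance.maxSize 4000

namespace Pool.Agent.MP_ecfd11_lc.H3G

open Pool.Agent.MP_ecfd11_lc.H20 Pool.Agent.MP_ecfd11_lc.H13X Pool.Agent.MP_ecfd11_lc.H3U
  Pool.Agent.MP_ecfd11_lc.H3E Pool.Agent.MP_ecfd11_lc.H65S

universe u

open ZFSet Cardinal Function Filter

theorem mainG {d x t : ZFSet.{u}} {k : Cardinal.{u}} (hd : StronglyCompact d t) (hdt : d ∈ t)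
    (hx : x ∈ t) (ht : Regular Set.univ t) (hk : ℵ₀ ≤ k) (hw : ∀ e ∈ t, card e ^ k < card t)
    (hs : ∀ l, x ∈ l → l ⊆ succCard t → Regular Set.univ l → StronglyMeasurable Set.univ l) :
    ∃ c, Club t c ∧ ∀ a ∈ c, (card a).IsStrongLimit →
      ¬ Regular Set.univ (card a).ord.toZFSet →
      (∀ y, y ⊆ a → card y ≤ k → ∃ b ∈ a, ∀ z ∈ y, z ∈ b) → Succ a (Lev a) →
      ∃ (N : Set ZFSet.{u}) (j : ZFSet.{u} → ZFSet.{u}), Near t N ∧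
        Elem {y | HOD Set.univ y} N j ∧ (∀ y ∈ a, j y = y) ∧ j a = t ∧
        ∀ Q, HOD Set.univ Q → Q ⊆ vonNeumann t.rank → (∃ z, z ∈ Q) →
          (∀ y ∈ Q, ∀ z ∈ Q, pair y z ∈ Q) →
          (Ctb a (Lev a) → Q ∈ vonNeumann t.rank ∧ Few k a Q) →
          ∃ (M : Set ZFSet.{u}) (i e : ZFSet.{u} → ZFSet.{u}), Internal M i ∧ Elem M N e ∧
            (∀ y, HOD Set.univ y → e (i y) = j y) ∧ (∀ z ∈ Q, ∃ w ∈ M, e w = z) ∧
            (∃ r, HOD Set.univ r ∧ ∀ p, p ∈ r ↔ ∃ w ∈ M, e w ∈ Q ∧ p = pair (e w) w) ∧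
            (Q.IsTransitive → ∀ z ∈ Q, z ∈ M ∧ e z = z) := by
  obtain ⟨g, go, rfl⟩ : ∃ g : ZFSet.{u}, g.IsOrdinal ∧ card g = k :=
    ⟨_, isOrdinal_toZFSet _, card_ord' k⟩
  have hu := unc_of_regular ht
  have hw' : ∀ e ∈ t, card e ^ ℵ₀ < card t := fun e he => by
    by_cases h2 : card e = 0
    · rw [h2]
      exact (zero_power_le _).trans_lt (one_lt_aleph0.trans ht.aleph0_lt)
    · exact (power_le_power_left h2 hk).trans_lt (hw e he)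
  have h5 : ∀ a : ZFSet.{u}, a.IsOrdinal → a ∈ succCard a := fun a ha =>
    mem_succCard.2 ⟨ha, le_rfl⟩
  have h6 : ∀ a : ZFSet.{u}, a.IsOrdinal → x ∈ a → a ⊆ t → ℵ₀ ≤ card a →
      StronglyMeasurable Set.univ (succCard a) := fun a ha h1 h2 h3 =>
    hs _ ((succCard_ord a).mem_trans h1 (h5 a ha)) (fun z hz => mem_succCard.2
      ⟨(mem_succCard.1 hz).1, (mem_succCard.1 hz).2.trans (card_mono h2)⟩) (regular_succCard h3)
  have hst := hs t hx ((succCard_ord t).subset_of_mem (h5 t ht.1)) ht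
  obtain ⟨B, hB⟩ := system2 hd hdt hst
    (card_Lev (h6 t ht.1 hx subset_rfl ht.aleph0_lt.le) (h5 t ht.1)) hw'
  obtain ⟨c, c1, c2⟩ := (ev_iff hu).1
    (hB.and ((realK hk ht hw (hB.mono fun _ h => h.1)).and (ev_above hu hx)))
  refine ⟨c, c1, fun a ha a1 a2 a3 a4 => ?_⟩
  obtain ⟨⟨G, g1⟩, g2, g3⟩ := not_not.1 fun h => c2 a (mem_sep.2 ⟨c1.1 ha, h⟩) ha
  have au := BdK.unc a3 hk G.ord
  have sl := sl_of a1 a2 au
  have sm := h6 a G.ord g3 G.sub sl.unc.le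
  have ga : card g ≤ card a := by
    by_contra h
    obtain ⟨b, b1, b2⟩ := a3 a subset_rfl (not_le.1 h).le
    exact mem_irrefl b (b2 b b1)
  obtain ⟨N, j, n1, n2, n3, n4, n5, n6⟩ := g1 au
  refine ⟨N, j, n1, n2, n3, n4, fun Q q0 q1 q2 q3 hQ => ?_⟩
  suffices h : ∃ E, HOD Set.univ E ∧ ∀ y z, pair y z ∈ E ↔ y ∈ Lev a ∧ z ∈ Q ∧ z ∈ j y by
    obtain ⟨E, e0, e1⟩ := h
    obtain ⟨M, i, e, m1, m2, m3, m4, m5⟩ := n6 Q E q0 q1 q2 q3 e0 e1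
    exact ⟨M, i, e, m1, m2, m3, m4, m5,
      fun h => fix_of_elem (fun x hx => (m1.1 x hx).2) m2 h m4⟩
  obtain ⟨n, f, f0, f1, f2, m3⟩ : ∃ n f, HOD Set.univ f ∧ IsFunc n Q f ∧
      (∀ x ∈ Q, ∃ r, pair r x ∈ f) ∧ HOD Set.univ (ExQ B a n f) := by
    rcases assembly_cases G sl a4 with ⟨u, hu'⟩ | h
    · obtain ⟨hQ, n, f, hn, f0, f1, f2, f3⟩ := hQ (ctb_of_cov G.ord hu')
      have m1 := small ga sm G.ord hn f3
      have m2 : n ∈ t := ht.mem_of_card_lt hn (m1.trans_lt (ht.card_lt (c1.1 ha)))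
      exact ⟨n, f, f0, f1, f2,
        assemblyK hk go G a3 sl (g2 a3) hu' hn m1 f3 (main_low ht m2 hQ f0 f1)⟩
    · have f0 := hod_grA q0 (fun z => z) fun i hi => q0.mem hi
      exact ⟨Q, _, f0, isFunc_gr fun _ hi => hi, fun x hx => ⟨x, pair_mem_gr.2 ⟨hx, rfl⟩⟩,
        h Q _ q0 f0⟩
  have := hod_tm f0
  refine ⟨img (fun p => pair (fst p) (app f (snd p))) (ExQ B a n f),
    hod_img m3.self _ fun p hp => ?_, fun y z => ?_⟩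
  · obtain ⟨x, hx, y, hy, rfl⟩ := mem_prod.1 (ExQ_sub hp)
    rw [fst_pair, snd_pair]
    exact hod_pair ((mem_Lev G.ord).1 hx).2 (hod_app f0 f1 hy)
  · rw [mem_img]
    constructor
    · rintro ⟨p, hp, e⟩
      obtain ⟨x, -, i, -, rfl⟩ := mem_prod.1 (ExQ_sub hp)
      rw [fst_pair, snd_pair] at e
      obtain ⟨rfl, rfl⟩ := pair_inj.1 e
      obtain ⟨p1, p2, w, w1, w2, w3⟩ := mem_ExQ.1 hp
      exact ⟨p1, f1.app_mem' p2, by rwa [w2, n5 w w1]⟩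
    · rintro ⟨p1, p2, p3⟩
      obtain ⟨i, hi⟩ := f2 z p2
      obtain ⟨w, w1, rfl⟩ := G.tr y p1
      refine ⟨pair _ i, mem_ExQ.2 ⟨p1, (pair_mem_prod.1 (f1.1 hi)).1, w, w1, rfl, ?_⟩, ?_⟩
      · rwa [f1.app_eq hi, ← n5 w w1]
      · rw [fst_pair, snd_pair, f1.app_eq hi]

end Pool.Agent.MP_ecfd11_lc.H3G
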