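import Pool.Agent.MP_ecfd11_lc.H65S.Defs

/-!
Embeddings that are classes of HOD.
-/

namespace Pool.Agent.MP_ecfd11_lc.H3G

universe u

open ZFSet

/-- `i : HOD → M` is elementary, `M ⊆ HOD` is transitive, and the restriction of `i` to every
set in HOD is in HOD. -/
def Internal (M : Set ZFSet.{u}) (i : ZFSet.{u} → ZFSet.{u}) : Prop :=
  (∀ x ∈ M, HOD Set.univ x ∧ ∀ y ∈ x, y ∈ M) ∧ H3U.Elem {x | HOD Set.univ x} M i ∧
    ∀ X, HOD Set.univ X → ∃ g, HOD Set.univ g ∧ ∀ p, p ∈ g ↔ ∃ x ∈ X, p = pair x (i x)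

end Pool.Agent.MP_ecfd11_lc.H3G
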