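import Pool.Agent.MP_ecfd11_lc.H65S.Main
import Pool.Agent.MP_ecfd11_lc.H3G.Defs

/-!
The functions with generators in a set.
-/

set_option synthInstance.maxSize 4000

namespace Pool.Agent.MP_ecfd11_lc.H3G

open Pool.Agent.MP_ecfd11_lc.H20 Pool.Agent.MP_ecfd11_lc.H13X Pool.Agent.MP_ecfd11_lc.H3U
  Pool.Agent.MP_ecfd11_lc.H3E Pool.Agent.MP_ecfd11_lc.H65S

universe u

open ZFSet Cardinal Function Filter

/-- The definable functions of one generator from `Q`. -/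
def Gen (F : Filter (ZFSet.{u} → ZFSet.{u})) (Q : ZFSet.{u}) :
    Set ((ZFSet.{u} → ZFSet.{u}) → ZFSet.{u}) :=
  {p | ∃ (f : ZFSet.{u} → ZFSet.{u}) (x : ZFSet.{u}), Tm Set.univ On (fun v => f (v 0)) ∧
    x ∈ Q ∧ (∀ᶠ h in F, HOD Set.univ (f (h x))) ∧ p = fun h => f (h x)}

/-- `F` induces an extender over HOD with support `Q`. -/
structure Sup (F : Filter (ZFSet.{u} → ZFSet.{u})) (a Q : ZFSet.{u}) : Prop where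
  ord : a.IsOrdinal
  lim : ∀ b ∈ a, ∃ c ∈ a, b ∈ c
  ne : ∃ z, z ∈ Q
  cl : ∀ x ∈ Q, ∀ y ∈ Q, pair x y ∈ Q
  f2 : ∀ x ∈ Q, ∀ y ∈ Q, ∀ᶠ h in F, h (pair x y) = pair (h x) (h y)
  f3 : ∀ x ∈ Q, ∀ᶠ h in F, h x ∈ low a
  fd : ∀ A ∈ Lev a, ∀ x ∈ Q, (∀ᶠ h in F, h x ∈ A) ∨ ∀ᶠ h in F, h x ∉ A

/-- `c` collapses the ultrapower. -/
structure Col (F : Filter (ZFSet.{u} → ZFSet.{u})) (Q : ZFSet.{u})
    (c : ((ZFSet.{u} → ZFSet.{u}) → ZFSet.{u}) → ZFSet.{u}) : Prop where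
  c1 : ∀ p ∈ Gen F Q, ∀ z, z ∈ c p ↔ ∃ q ∈ Gen F Q, (∀ᶠ h in F, q h ∈ p h) ∧ c q = z
  c2 : ∀ (φ : Fml) (p : ℕ → (ZFSet.{u} → ZFSet.{u}) → ZFSet.{u}), (∀ n, p n ∈ Gen F Q) →
    (Sat (c '' Gen F Q) φ (fun n => c (p n)) ↔
      ∀ᶠ h in F, Sat {x | HOD Set.univ x} φ fun n => p n h)

theorem Col.eq {F : Filter (ZFSet.{u} → ZFSet.{u})} {Q : ZFSet.{u}}
    {c : ((ZFSet.{u} → ZFSet.{u}) → ZFSet.{u}) → ZFSet.{u}} (h : Col F Q c) {p q}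
    (hp : p ∈ Gen F Q) (hq : q ∈ Gen F Q) : c p = c q ↔ ∀ᶠ h in F, p h = q h := by
  have := h.c2 (.eq 0 1) (fun n => Nat.casesOn n p fun _ => q) fun n => by
    cases n; exacts [hp, hq]
  exact this

theorem gen_const {F : Filter (ZFSet.{u} → ZFSet.{u})} {Q x : ZFSet.{u}} (h : ∃ z, z ∈ Q)
    (hx : HOD Set.univ x) : (fun _ => x) ∈ Gen F Q :=
  h.elim fun z hz => ⟨fun _ => x, z, hod_tm hx, hz, .of_forall fun _ => hx, rfl⟩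

theorem gen_id {F : Filter (ZFSet.{u} → ZFSet.{u})} {a Q x : ZFSet.{u}} (h : Sup F a Q)
    (hx : x ∈ Q) : (fun h => h x) ∈ Gen F Q :=
  ⟨id, x, Tm.var 0, hx, (h.f3 x hx).mono fun _ h' => ((mem_low h.ord).1 h').2, rfl⟩

end Pool.Agent.MP_ecfd11_lc.H3G
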