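import Pool.Agent.MP_ecfd11_lc.H3G.Base

/-!
The ultrapower by an extender in HOD is a class of HOD.
-/

set_option synthInstance.maxSize 4000

namespace Pool.Agent.MP_ecfd11_lc.H3G

open Pool.Agent.MP_ecfd11_lc.H20 Pool.Agent.MP_ecfd11_lc.H13X Pool.Agent.MP_ecfd11_lc.H3U
  Pool.Agent.MP_ecfd11_lc.H3E Pool.Agent.MP_ecfd11_lc.H65S

universe u

open ZFSet Cardinal Function Filter

/-- The codes of the members of the class coded by `w`. -/
noncomputable def prd (L Q E w : ZFSet.{u}) : ZFSet.{u} :=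
  (prod (powerset (prod L (⋃₀ img snd (fst w)))) Q).sep fun v =>
    (HOD Set.univ (fst w) ∧ snd w ∈ Q) ∧ HOD Set.univ (fst v) ∧
      pair (L.sep fun l => app (fst v) (fst l) ∈ app (fst w) (snd l)) (pair (snd v) (snd w)) ∈ E

theorem hod_app' {f y : ZFSet.{u}} (hf : HOD Set.univ f) (hy : HOD Set.univ y) :
    HOD Set.univ (app f y) := by
  have := hod_tm hf
  have := hod_tm hy
  refine hod_of (od_iff.2 inferInstance) fun z hz => ?_
  obtain ⟨s, h1, h2⟩ := mem_sUnion.1 hz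
  exact (hod_snd hf (mem_sep.1 h1).2).mem h2

theorem defin {F : Filter (ZFSet.{u} → ZFSet.{u})} {a Q E : ZFSet.{u}} (h : Sup F a Q)
    (hQ : HOD Set.univ Q) (hE : HOD Set.univ E)
    (fE : ∀ A ∈ Lev a, ∀ x ∈ Q, pair A x ∈ E ↔ ∀ᶠ h in F, h x ∈ A)
    {c : ((ZFSet.{u} → ZFSet.{u}) → ZFSet.{u}) → ZFSet.{u}} (hc : Col F Q c) :
    (∀ p ∈ Gen F Q, HOD Set.univ (c p)) ∧ ∃ K : ZFSet.{u} → ZFSet.{u} → ZFSet.{u},
      Tm Set.univ On (fun v => K (v 0) (v 1)) ∧
        ∀ f z, HOD Set.univ f → z ∈ Q → K f z = c fun h => app f (h z) := by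
  have ha := h.ord
  have hD := tm_low ha
  have hl := ((mem_Lev ha).1 (low_lev ha)).2
  have tQ := hod_tm hQ
  have tE := hod_tm hE
  have gen : ∀ f z, HOD Set.univ f → z ∈ Q →
      (fun h : ZFSet.{u} → ZFSet.{u} => app f (h z)) ∈ Gen F Q := fun f z hf hz => by
    have := hod_tm hf
    exact ⟨app f, z, inferInstance, hz,
      (h.f3 z hz).mono fun _ h1 => hod_app' hf (hl.mem h1), rfl⟩
  have key : ∀ f z g y, HOD Set.univ f → z ∈ Q → HOD Set.univ g → y ∈ Q →
      (pair ((low a).sep fun l => app g (fst l) ∈ app f (snd l)) (pair y z) ∈ E ↔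
        ∀ᶠ h in F, app g (h y) ∈ app f (h z)) := fun f z g y hf hz hg hy => by
    have := hod_tm hf
    have := hod_tm hg
    rw [fE _ (lev_of_sub ha sep_subset inferInstance) _ (h.cl y hy z hz)]
    refine eventually_congr ?_
    filter_upwards [h.f2 y hy z hz, h.f3 _ (h.cl y hy z hz)] with k h1 h2
    rw [mem_sep, and_iff_right h2, h1, fst_pair, snd_pair]
  have pr : ∀ v w, v ∈ prd (low a) Q E w → (HOD Set.univ (fst w) ∧ snd w ∈ Q) ∧
      (HOD Set.univ (fst v) ∧ snd v ∈ Q) ∧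
        ∀ᶠ h in F, app (fst v) (h (snd v)) ∈ app (fst w) (h (snd w)) := fun v w hv => by
    obtain ⟨h1, h2, h3, h4⟩ := mem_sep.1 hv
    have h5 : snd v ∈ Q := by
      obtain ⟨x, -, y, hy, rfl⟩ := mem_prod.1 h1
      rwa [snd_pair]
    exact ⟨h2, ⟨h3, h5⟩, (key _ _ _ _ h2.1 h2.2 h3 h5).1 h4⟩
  have wf : WellFounded fun v w => v ∈ prd (low a) Q E w :=
    Subrelation.wf (r := InvImage (· ∈ ·) fun w => c fun h => app (fst w) (h (snd w)))
      (fun {v w} hv => by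
        obtain ⟨h1, h2, h3⟩ := pr v w hv
        exact (hc.c1 _ (gen _ _ h1.1 h1.2) _).2 ⟨_, gen _ _ h2.1 h2.2, h3, rfl⟩)
      (InvImage.wf _ mem_wf)
  obtain ⟨H, eH⟩ : ∃ H, H = recF (prd (low a) Q E) fun _ g => img snd g := ⟨_, rfl⟩
  have tH : Tm Set.univ On (fun v => H (v 0)) :=
    Tm.recursion (fun _ => prd (low a) Q E) (fun _ _ g => img snd g) (fun _ => H)
      (hp := by unfold prd; infer_instance) (fun _ _ => wf) fun _ _ x _ => eH ▸ recF_eq wf _ x
  have code : ∀ q ∈ Gen F Q, ∀ R : ZFSet.{u}, OD Set.univ R → (∀ᶠ h in F, q h ∈ R) →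
      ∃ g y, g ⊆ prod (low a) R ∧ y ∈ Q ∧ HOD Set.univ g ∧ ∀ᶠ h in F, app g (h y) = q h := by
    rintro _ ⟨g, y, h1, h2, h3, rfl⟩ R hR h4
    have := od_iff.1 hR
    have := Tm.one (C := Set.univ) (A := On) g
    refine ⟨gr g ((low a).sep fun l => g l ∈ R ∧ HOD Set.univ (g l)), y, fun z hz => ?_, h2,
      hod_grA (hod_sub hl sep_subset (od_iff.2 inferInstance)) g fun i hi => (mem_sep.1 hi).2.2, ?_⟩
    · obtain ⟨l, hl, rfl⟩ := mem_img.1 hz
      exact pair_mem_prod.2 ⟨(mem_sep.1 hl).1, (mem_sep.1 hl).2.1⟩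
    · filter_upwards [h3, h4, h.f3 y h2] with k h5 h6 h7 using app_gr (mem_sep.2 ⟨h7, h6, h5⟩)
  have val : ∀ w, HOD Set.univ (fst w) → snd w ∈ Q →
      H w = c fun h => app (fst w) (h (snd w)) := fun w => by
    induction w using wf.induction with
    | _ w ih =>
      intro h1 h2
      ext z
      rw [eH, recF_eq wf, ← eH, snd_gr, mem_img, hc.c1 _ (gen _ _ h1 h2)]
      constructor
      · rintro ⟨v, hv, rfl⟩
        obtain ⟨-, h3, h4⟩ := pr v w hv
        exact ⟨_, gen _ _ h3.1 h3.2, h4, (ih v hv h3.1 h3.2).symm⟩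
      · rintro ⟨q, hq, h3, rfl⟩
        have := hod_tm h1
        obtain ⟨g, y, g1, g2, g3, g4⟩ := code q hq (⋃₀ img snd (fst w)) (od_iff.2 inferInstance)
          (h3.mono fun k hk => by
            obtain ⟨s, h4, h5⟩ := mem_sUnion.1 hk
            exact mem_sUnion.2 ⟨s, (mem_sep.1 h4).1, h5⟩)
        have h4 : pair g y ∈ prd (low a) Q E w := mem_sep.2
          ⟨pair_mem_prod.2 ⟨mem_powerset.2 g1, g2⟩, ⟨h1, h2⟩, by rwa [fst_pair], by
            rw [fst_pair, snd_pair, key _ _ _ _ h1 h2 g3 g2]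
            filter_upwards [h3, g4] with k h5 h6 using h6 ▸ h5⟩
        refine ⟨_, h4, ?_⟩
        rw [ih _ h4 (by rwa [fst_pair]) (by rwa [snd_pair]), fst_pair, snd_pair]
        exact (hc.eq (gen _ _ g3 g2) hq).2 g4
  have val' : ∀ f z, HOD Set.univ f → z ∈ Q → H (pair f z) = c fun h => app f (h z) :=
    fun f z hf hz => by
      simpa only [fst_pair, snd_pair] using val (pair f z) (by rwa [fst_pair]) (by rwa [snd_pair])
  have := Tm.one (C := Set.univ) (A := On) H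
  refine ⟨?_, fun f z => H (pair f z), inferInstance, val'⟩
  suffices h1 : ∀ z, ∀ p ∈ Gen F Q, c p = z → HOD Set.univ z from fun p hp => h1 _ p hp rfl
  intro z
  induction z using ZFSet.inductionOn with
  | _ z ih =>
    rintro p hp rfl
    refine hod_of ?_ fun y hy => ?_
    · obtain ⟨f, x, h1, h2, -, e⟩ := id hp
      have := Tm.one (C := Set.univ) (A := On) f
      obtain ⟨g, y, -, g2, g3, g4⟩ := code p hp (img f (low a)) (od_iff.2 inferInstance)
        ((h.f3 x h2).mono fun k hk => mem_img.2 ⟨_, hk, by rw [e]⟩)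
      have := hod_tm g3
      have := hod_tm (hQ.mem g2)
      rw [← (hc.eq (gen _ _ g3 g2) hp).2 g4, ← val' _ _ g3 g2]
      exact od_iff.2 inferInstance
    · obtain ⟨q, h1, -, h2⟩ := (hc.c1 p hp y).1 hy
      exact ih y hy q h1 h2

end Pool.Agent.MP_ecfd11_lc.H3G
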