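import Pool.Agent.MP_ecfd11_lc.H3G.Ult
import Pool.Agent.MP_ecfd11_lc.H3G.Defin

/-!
The class embedding and its factors.
-/

set_option synthInstance.maxSize 4000

namespace Pool.Agent.MP_ecfd11_lc.H3G

open Pool.Agent.MP_ecfd11_lc.H20 Pool.Agent.MP_ecfd11_lc.H13X Pool.Agent.MP_ecfd11_lc.H3U
  Pool.Agent.MP_ecfd11_lc.H3E Pool.Agent.MP_ecfd11_lc.H65S

universe u

open ZFSet Cardinal Function Filter

variable {a t : ZFSet.{u}} {s : ZFSet.{u} → ZFSet.{u}}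

theorem fix_of_elem {M N : Set ZFSet.{u}} {k : ZFSet.{u} → ZFSet.{u}} {Q : ZFSet.{u}}
    (hM : ∀ x ∈ M, ∀ y ∈ x, y ∈ M) (hk : Elem M N k) (hQ : Q.IsTransitive)
    (h : ∀ z ∈ Q, ∃ w ∈ M, k w = z) : ∀ z ∈ Q, z ∈ M ∧ k z = z := by
  have m : ∀ x ∈ M, ∀ y ∈ M, x ∈ y ↔ k x ∈ k y := fun x hx y hy =>
    hk.2 (.mem 0 1) (cons x fun _ => y) fun n => by cases n; exacts [hx, hy]
  have key : ∀ z, z ∈ Q → ∀ w ∈ M, k w = z → w = z := fun z => by
    induction z using ZFSet.inductionOn with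
    | _ z ih =>
      intro hz w hw e
      refine ZFSet.ext fun v => ⟨fun hv => ?_, fun hv => ?_⟩
      · have h1 : k v ∈ z := e ▸ (m v (hM w hw v hv) w hw).1 hv
        rwa [ih _ h1 (hQ.mem_trans h1 hz) v (hM w hw v hv) rfl]
      · obtain ⟨w', h1, h2⟩ := h v (hQ.mem_trans hv hz)
        have h3 := ih v hv (hQ.mem_trans hv hz) w' h1 h2
        rw [← h3]
        exact (m w' h1 w hw).2 (by rwa [h2, e])
  intro z hz
  obtain ⟨w, h1, h2⟩ := h z hz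
  have h3 := key z hz w h1 h2
  exact ⟨h3 ▸ h1, by rw [← h3] at h2 ⊢; exact h2⟩

theorem exists_class2 (he : Ext a t s) (ht : t.IsOrdinal) (hat : a ∈ t)
    (la : ∀ b ∈ a, ∃ c ∈ a, b ∈ c) (lt : ∀ b ∈ t, ∃ c ∈ t, b ∈ c) (hc : Thread a s) :
    ∃ (N : Set ZFSet.{u}) (j : ZFSet.{u} → ZFSet.{u}), Near t N ∧
      Elem {x | HOD Set.univ x} N j ∧ (∀ x ∈ Lev a, j x = s x) ∧
      ∀ Q E : ZFSet.{u}, HOD Set.univ Q → Q ⊆ vonNeumann t.rank → (∃ z, z ∈ Q) →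
        (∀ x ∈ Q, ∀ y ∈ Q, pair x y ∈ Q) → HOD Set.univ E →
        (∀ y z, pair y z ∈ E ↔ y ∈ Lev a ∧ z ∈ Q ∧ z ∈ j y) →
        ∃ (M : Set ZFSet.{u}) (i k : ZFSet.{u} → ZFSet.{u}), Internal M i ∧ Elem M N k ∧
          (∀ x, HOD Set.univ x → k (i x) = j x) ∧ (∀ z ∈ Q, ∃ w ∈ M, k w = z) ∧
          ∃ r, HOD Set.univ r ∧ ∀ p, p ∈ r ↔ ∃ w ∈ M, k w ∈ Q ∧ p = pair (k w) w := by
  classical
  have ha := ht.mem hat
  obtain ⟨F, _, _, f1, f2⟩ := exists_filter he ht hat lt hc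
  have hD := tm_low ha
  have hL := low_lev ha
  have e0 := he.low ht hat
  have f3 : ∀ x ∈ low t, ∀ᶠ h in F, h x ∈ low a := fun x hx => f1 _ hL x (e0 ▸ hx)
  have f4 : ∀ A ∈ Lev a, ∀ x ∈ low t, x ∉ s A → ∀ᶠ h in F, h x ∉ A := fun A hA x hx h1 => by
    have := od_iff.1 ((mem_Lev ha).1 hA).2.self
    have h2 : low a \ A ∈ Lev a :=
      lev_of_sub ha (fun _ hz => (ZFSet.mem_sdiff.1 hz).1) inferInstance
    have h3 := he.tf3 hat (fun D A B => ∀ x, x ∈ D → x ∈ A ∨ x ∈ B) hL hA h2 fun x hx => by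
      rw [ZFSet.mem_sdiff]; tauto
    filter_upwards [f1 _ h2 x ((h3 x (e0 ▸ hx)).resolve_left h1)] with h h4 using
      (ZFSet.mem_sdiff.1 h4).2
  have f5 : ∀ A ∈ Lev a, ∀ x ∈ low t, (∀ᶠ h in F, h x ∈ A) → x ∈ s A := fun A hA x hx h1 =>
    by_contra fun h2 => by
      obtain ⟨h, h3, h4⟩ := (h1.and (f4 A hA x hx h2)).exists
      exact h4 h3
  have t0 : a ∈ low t := (mem_low ht).2 ⟨rank_lt_of_mem hat, hod_ord ha⟩
  have sup : ∀ Q : ZFSet.{u}, Q ⊆ low t → (∃ z, z ∈ Q) → (∀ x ∈ Q, ∀ y ∈ Q, pair x y ∈ Q) →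
      Sup F a Q := fun Q q1 q2 q3 => ⟨ha, la, q2, q3, fun x hx y hy => f2 x (q1 hx) y (q1 hy),
    fun x hx => f3 x (q1 hx), fun A hA x hx => (em (x ∈ s A)).imp (f1 A hA x) (f4 A hA x (q1 hx))⟩
  have st := sup (low t) subset_rfl ⟨a, t0⟩ fun x hx y hy => low_pair ht lt hx hy
  obtain ⟨c, hcol⟩ := ult_on F st
  obtain ⟨G, eG⟩ : ∃ G, G = Gen F (low t) := ⟨_, rfl⟩
  have hG : ∀ p, p ∈ G ↔
      ∃ (f : ZFSet.{u} → ZFSet.{u}) (x : ZFSet.{u}), Tm Set.univ On (fun v => f (v 0)) ∧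
        x ∈ low t ∧ (∀ᶠ h in F, HOD Set.univ (f (h x))) ∧ p = fun h => f (h x) :=
    fun _ => eG ▸ Iff.rfl
  have c1 := eG ▸ hcol.c1
  have c2 := eG ▸ hcol.c2
  have g1 : ∀ p ∈ G, ∀ᶠ h in F, HOD Set.univ (p h) := fun p hp => by
    obtain ⟨f, x, -, -, h, rfl⟩ := (hG p).1 hp
    exact h
  have g3 : ∀ x ∈ low t, (fun h : ZFSet.{u} → ZFSet.{u} => h x) ∈ G := fun x hx =>
    eG ▸ gen_id st hx
  have g4 : ∀ x, HOD Set.univ x → (fun _ : ZFSet.{u} → ZFSet.{u} => x) ∈ G := fun x hx =>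
    eG ▸ gen_const st.ne hx
  have c3 : ∀ p ∈ G, ∀ q ∈ G, (∀ᶠ h in F, p h = q h) → c p = c q := fun p hp q hq h =>
    (hcol.eq (eG ▸ hp) (eG ▸ hq)).2 h
  have v1 : ∀ q ∈ G, (∀ᶠ h in F, q h ∈ low a) → ∃ z ∈ low t, ∀ᶠ h in F, q h = h z :=
    fun q hq h1 => by
      obtain ⟨g, y, h2, h3, -, rfl⟩ := (hG q).1 hq
      have := Tm.one (C := Set.univ) (A := On) g
      have h4 := lev_of_sub ha (A := (low a).sep fun l => g l ∈ low a) sep_subset inferInstance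
      have h5 := lev_of_sub ha (A := gr g ((low a).sep fun l => g l ∈ low a)) (fun z hz => by
        obtain ⟨l, hl, rfl⟩ := mem_img.1 hz
        exact low_pair ha la (mem_sep.1 hl).1 (mem_sep.1 hl).2) inferInstance
      obtain ⟨z, hz⟩ := he.tf3 hat (fun A f _ => ∀ l, l ∈ A → ∃ w, pair l w ∈ f) h4 h5 h5
        (fun l hl => ⟨_, pair_mem_gr.2 ⟨hl, rfl⟩⟩) y (f5 _ h4 y h3 (by
          filter_upwards [h1, f3 y h3] with h h6 h7 using mem_sep.2 ⟨h7, h6⟩))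
      have h6 : z ∈ low t :=
        snd_in (fun _ h _ h' => low_tr ht h' h) (sub_low ht (he.1 _ h5) hz)
      refine ⟨z, h6, ?_⟩
      filter_upwards [f1 _ h5 _ hz, f2 y h3 z h6] with h h7 h8 using
        (pair_mem_gr.1 (h8 ▸ h7)).2
  have v2 : ∀ x ∈ low t, ∀ z ∈ low t, (∀ᶠ h in F, h z ∈ h x) ↔ z ∈ x := fun x hx z hz => by
    have h1 := lev_of_sub ha (A := (low a).sep fun l => fst l ∈ snd l) sep_subset inferInstance
    have h2 := he.tf3 hat (fun D A _ => ∀ v w, pair v w ∈ D → (pair v w ∈ A ↔ v ∈ w)) hL h1 h1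
      (fun v w h => by simp only [mem_sep, fst_pair, snd_pair, h, true_and]) z x
      (e0 ▸ low_pair ht lt hz hx)
    refine ⟨fun h => h2.1 (f5 _ h1 _ (low_pair ht lt hz hx) ?_), fun h => ?_⟩
    · filter_upwards [h, f2 z hz x hx, f3 _ (low_pair ht lt hz hx)] with h h3 h4 h5 using
        mem_sep.2 ⟨h5, by rwa [h4, fst_pair, snd_pair]⟩
    · filter_upwards [f1 _ h1 _ (h2.2 h), f2 z hz x hx] with h h3 h4
      simpa only [h4, fst_pair, snd_pair] using (mem_sep.1 h3).2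
  have p1 : ∀ x, x ∈ low t → c (fun h => h x) = x := fun x => by
    induction x using ZFSet.inductionOn with
    | _ x ih =>
      intro hx
      ext z
      rw [c1 _ (g3 x hx)]
      constructor
      · rintro ⟨q, q1, q2, rfl⟩
        obtain ⟨w, w1, w2⟩ := v1 q q1 (by
          filter_upwards [q2, f3 x hx] with h h1 h2 using low_tr ha h1 h2)
        have h1 : w ∈ x := (v2 x hx w w1).1 (by
          filter_upwards [q2, w2] with h h1 h2 using h2 ▸ h1)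
        rwa [c3 q q1 _ (g3 w w1) w2, ih w h1 w1]
      · exact fun h => ⟨_, g3 z (low_tr ht h hx), (v2 x hx z (low_tr ht h hx)).2 h,
          ih z h (low_tr ht h hx)⟩
  have p2 : ∀ A ∈ Lev a, c (fun _ => A) = s A := fun A hA => by
    ext z
    rw [c1 _ (g4 A ((mem_Lev ha).1 hA).2)]
    constructor
    · rintro ⟨q, q1, q2, rfl⟩
      obtain ⟨w, w1, w2⟩ := v1 q q1 (q2.mono fun _ h => sub_low ha hA h)
      rw [c3 q q1 _ (g3 w w1) w2, p1 w w1]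
      exact f5 A hA w w1 (by filter_upwards [q2, w2] with h h1 h2 using h2 ▸ h1)
    · exact fun h => ⟨_, g3 z (sub_low ht (he.1 _ hA) h), f1 A hA z h,
        p1 z (sub_low ht (he.1 _ hA) h)⟩
  have p3 : ∀ x ∈ c '' G, ∀ y ∈ x, y ∈ c '' G := by
    rintro _ ⟨p, hp, rfl⟩ y hy
    obtain ⟨q, q1, -, q2⟩ := (c1 p hp y).1 hy
    exact ⟨q, q1, q2⟩
  have p4 : ∀ p ∈ G, ∀ q ∈ G, c p ⊆ c q → ∀ᶠ h in F, p h ⊆ q h := fun p hp q hq h1 => by
    have h2 := c2 (.all (.neg (.and (.mem 0 1) (.neg (.mem 0 2)))))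
      (fun n => Nat.casesOn n p fun _ => q) fun n => by cases n; exacts [hp, hq]
    filter_upwards [h2.1 fun y _ h => h.2 (h1 h.1), g1 p hp] with h h3 h4 y hy using
      not_not.1 fun h5 => h3 y (h4.mem hy) ⟨hy, h5⟩
  have p5 : ∀ x, rank x < rank t → x ∈ c '' G → x ∈ low t := fun x => by
    induction x using ZFSet.inductionOn with
    | _ x ih =>
      rintro hx ⟨q, hq, rfl⟩
      have h1 := isOrdinal_toZFSet (rank (c q))
      have h2 : low (rank (c q)).toZFSet ∈ low t := (mem_low ht).2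
        ⟨(rank_le_iff.2 fun y hy => by simpa using ((mem_low h1).1 hy).1).trans_lt hx,
          ((mem_Lev h1).1 (low_lev h1)).2⟩
      obtain ⟨w, w1, w2⟩ := v1 q hq (by
        filter_upwards [p4 q hq _ (g3 _ h2) fun y hy => by
          rw [p1 _ h2]
          exact (mem_low h1).2 ⟨by simpa using rank_lt_of_mem hy, ((mem_low ht).1
            (ih y hy ((rank_lt_of_mem hy).trans hx) (p3 _ ⟨q, hq, rfl⟩ y hy))).2⟩,
          g1 q hq, f3 _ h2] with h h4 h5 h6 using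
          (mem_low ha).2 ⟨(rank_mono h4).trans_lt ((mem_low ha).1 h6).1, h5⟩)
      rwa [c3 q hq _ (g3 w w1) w2, p1 w w1]
  refine ⟨c '' G, fun x => c fun _ => x, ⟨p3, fun x hx h => ?_, ?_⟩,
    ⟨fun x hx => ⟨_, g4 x hx, rfl⟩, fun φ v hv => ?_⟩, p2, fun Q E q0 q1 q2 q3 e0 e1 => ?_⟩
  · have h1 := (mem_low ht).2 ⟨mem_vonNeumann.1 hx, h⟩
    exact ⟨_, g3 x h1, p1 x h1⟩
  · rintro _ hx ⟨q, hq, rfl⟩
    have h1 : c q ⊆ low t := fun y hy => p5 y ((rank_lt_of_mem hy).trans_le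
      (Order.lt_add_one_iff.1 (mem_vonNeumann.1 hx))) (p3 _ ⟨q, hq, rfl⟩ y hy)
    obtain ⟨g, y, h2, h3, -, rfl⟩ := (hG q).1 hq
    have := Tm.one (C := Set.univ) (A := On) g
    have h4 := lev_of_sub ha (A := (low a).sep fun l => snd l ∈ g (fst l)) sep_subset inferInstance
    have := od_iff.1 ((mem_Lev ht).1 (he.1 _ h4)).2.self
    have := od_iff.1 ((mem_low ht).1 h3).2.self
    have := tm_low ht
    refine ((mem_Lev ht).1 (lev_of_sub ht h1 (Tm.of (fun _ => (low t).sep fun w =>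
      pair y w ∈ s ((low a).sep fun l => snd l ∈ g (fst l))) inferInstance fun _ _ => ?_))).2
    ext w
    rw [mem_sep]
    refine ⟨fun h => (c1 _ hq w).2 ⟨_, g3 w h.1, ?_, p1 w h.1⟩, fun h => ⟨h1 h, ?_⟩⟩
    · filter_upwards [f1 _ h4 _ h.2, f2 y h3 w h.1] with h h5 h6
      simpa only [h6, fst_pair, snd_pair] using (mem_sep.1 h5).2
    · have h5 := c2 (.mem 0 1) (fun n => Nat.casesOn n (fun h => h w) fun _ h => g (h y))
        fun n => by cases n; exacts [g3 w (h1 h), hq]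
      refine f5 _ h4 _ (low_pair ht lt h3 (h1 h)) ?_
      filter_upwards [h5.1 (by rwa [← p1 w (h1 h)] at h), f2 y h3 w (h1 h),
        f3 _ (low_pair ht lt h3 (h1 h))] with h h6 h7 h8 using
        mem_sep.2 ⟨h8, by rwa [h7, fst_pair, snd_pair]⟩
  · rw [c2 φ (fun n _ => v n) fun n => g4 _ (hv n), eventually_const]
  have q4 : Q ⊆ low t := fun z hz => (mem_low ht).2 ⟨mem_vonNeumann.1 (q1 hz), q0.mem hz⟩
  have sq := sup Q q4 q2 q3
  obtain ⟨c', hc'⟩ := ult_on F sq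
  obtain ⟨d1, K, k0, k1⟩ := defin sq q0 e0 (fun A hA x hx => by
    simp only [e1, p2 A hA]
    exact ⟨fun h => f1 A hA x h.2.2, fun h => ⟨hA, hx, f5 A hA x (q4 hx) h⟩⟩) hc'
  have := Tm.two (C := Set.univ) (A := On) K
  have sub : ∀ p ∈ Gen F Q, p ∈ G := fun p ⟨f, x, h1, h2, h3⟩ => (hG p).2 ⟨f, x, h1, q4 h2, h3⟩
  have ex : ∀ m, ∃ p, m ∈ c' '' Gen F Q → p ∈ Gen F Q ∧ c' p = m := fun m => by
    by_cases h : m ∈ c' '' Gen F Q
    exacts [h.imp fun _ h _ => h, ⟨fun _ => ∅, fun h' => absurd h' h⟩]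
  choose P hP using ex
  have kk : ∀ p ∈ Gen F Q, c (P (c' p)) = c p := fun p hp => by
    obtain ⟨h1, h2⟩ := hP _ ⟨p, hp, rfl⟩
    exact c3 _ (sub _ h1) _ (sub _ hp) ((hc'.eq h1 hp).1 h2)
  have hl := ((mem_Lev ha).1 hL).2
  have val : ∀ (f : ZFSet.{u} → ZFSet.{u}) [Tm Set.univ On (fun v => f (v 0))],
      (∀ y ∈ low a, HOD Set.univ (f y)) → ∀ z ∈ Q, (fun h => f (h z)) ∈ Gen F Q →
      K (gr f (low a)) z = c' fun h => f (h z) := fun f hf h1 z hz h2 => by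
    have h3 := hod_grA hl f h1
    have := hod_tm h3
    rw [k1 _ _ h3 hz]
    refine (hc'.eq ⟨app (gr f (low a)), z, inferInstance, hz, ?_, rfl⟩ h2).2 ?_
    · filter_upwards [sq.f3 z hz] with h h4
      rw [app_gr h4]
      exact h1 _ h4
    · filter_upwards [sq.f3 z hz] with h h4 using app_gr h4
  obtain ⟨z0, hz0⟩ := q2
  have := hod_tm (q0.mem hz0)
  have := hod_tm q0
  have r1 : ∀ z ∈ Q, c (P (c' fun h => h z)) = z := fun z hz =>
    (kk _ (gen_id sq hz)).trans (p1 z (q4 hz))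
  refine ⟨c' '' Gen F Q, fun x => c' fun _ => x, fun m => c (P m), ⟨?_,
    ⟨fun x hx => ⟨_, gen_const sq.ne hx, rfl⟩, fun φ v hv => ?_⟩, fun X hX => ?_⟩,
    ⟨fun m hm => ⟨_, sub _ (hP m hm).1, rfl⟩, fun φ v hv => ?_⟩,
    fun x hx => kk _ (gen_const sq.ne hx), fun z hz => ⟨_, ⟨_, gen_id sq hz, rfl⟩, r1 z hz⟩, ?_⟩
  · rintro _ ⟨p, hp, rfl⟩
    refine ⟨d1 p hp, fun y hy => ?_⟩
    obtain ⟨q, h1, -, h2⟩ := (hc'.c1 p hp y).1 hy
    exact ⟨q, h1, h2⟩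
  · rw [hc'.c2 φ (fun n _ => v n) fun n => gen_const sq.ne (hv n), eventually_const]
  · have h1 : ∀ x ∈ X, K (gr (fun _ => x) (low a)) z0 = c' fun _ => x := fun x hx => by
      have := hod_tm (hX.mem hx)
      exact val (fun _ => x) (fun _ _ => hX.mem hx) z0 hz0 (gen_const sq.ne (hX.mem hx))
    refine ⟨_, hod_grA hX (fun x => K (gr (fun _ => x) (low a)) z0) fun x hx =>
      h1 x hx ▸ d1 _ (gen_const sq.ne (hX.mem hx)), fun p => mem_img.trans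
        (exists_congr fun x => and_congr_right fun hx => by simp only [h1 x hx, eq_comm])⟩
  · rw [c2 φ (fun n => P (v n)) fun n => sub _ (hP _ (hv n)).1,
      ← hc'.c2 φ (fun n => P (v n)) fun n => (hP _ (hv n)).1]
    exact sat_congr φ fun n _ => (hP _ (hv n)).2.symm
  · have h1 : ∀ z ∈ Q, K (gr (fun y => y) (low a)) z = c' fun h => h z := fun z hz =>
      val (fun y => y) (fun y hy => hl.mem hy) z hz (gen_id sq hz)
    refine ⟨_, hod_grA q0 (fun z => K (gr (fun y => y) (low a)) z) fun z hz =>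
      h1 z hz ▸ d1 _ (gen_id sq hz), fun p => mem_img.trans ⟨?_, ?_⟩⟩
    · rintro ⟨z, hz, rfl⟩
      exact ⟨_, ⟨_, gen_id sq hz, rfl⟩, by simpa only [r1 z hz] using hz,
        by simp only [r1 z hz, h1 z hz]⟩
    · rintro ⟨w, hw, h2, rfl⟩
      obtain ⟨h3, h4⟩ := hP w hw
      have h5 : (c' fun h => h (c (P w))) = w := ((hc'.eq (gen_id sq h2) h3).2
        ((hcol.eq (gen_id st (q4 h2)) (eG ▸ sub _ h3)).1 (p1 _ (q4 h2)))).trans h4
      exact ⟨_, h2, by simp only [h1 _ h2, h5]⟩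

end Pool.Agent.MP_ecfd11_lc.H3G
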