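import Pool.Agent.MP_ecfd11_lc.H3G.Sys
import Pool.Agent.MP_ecfd11_lc.H46M.Main

/-!
Strong embeddings inside HOD without the generalized continuum hypothesis.
-/

set_option synthInstance.maxSize 4000

namespace Pool.Agent.MP_ecfd11_lc.H3G

open Pool.Agent.MP_ecfd11_lc.H20 Pool.Agent.MP_ecfd11_lc.H13X Pool.Agent.MP_ecfd11_lc.H3U
  Pool.Agent.MP_ecfd11_lc.H3E Pool.Agent.MP_ecfd11_lc.H65S Pool.Agent.MP_ecfd11_lc.H46M

universe u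

open ZFSet Cardinal Function Filter

theorem clause {t a Q n f : ZFSet.{u}} {B j : ZFSet.{u} → ZFSet.{u}} {N : Set ZFSet.{u}}
    (G : Good t B a) (n5 : ∀ x ∈ a, j (B x ∩ vC Set.univ a) = B x) (n6 : Fac t a N j)
    (q0 : HOD Set.univ Q) (q1 : Q ⊆ vonNeumann t.rank) (q2 : ∃ z, z ∈ Q)
    (q3 : ∀ y ∈ Q, ∀ z ∈ Q, pair y z ∈ Q) (f0 : HOD Set.univ f) (f1 : IsFunc n Q f)
    (f2 : ∀ x ∈ Q, ∃ r, pair r x ∈ f) (m3 : HOD Set.univ (ExQ B a n f)) :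
    ∃ (M : Set ZFSet.{u}) (i e : ZFSet.{u} → ZFSet.{u}), Internal M i ∧ Elem M N e ∧
      (∀ y, HOD Set.univ y → e (i y) = j y) ∧ (∀ z ∈ Q, ∃ w ∈ M, e w = z) ∧
      (∃ r, HOD Set.univ r ∧ ∀ p, p ∈ r ↔ ∃ w ∈ M, e w ∈ Q ∧ p = pair (e w) w) ∧
      (Q.IsTransitive → ∀ z ∈ Q, z ∈ M ∧ e z = z) := by
  suffices h : ∃ E, HOD Set.univ E ∧ ∀ y z, pair y z ∈ E ↔ y ∈ Lev a ∧ z ∈ Q ∧ z ∈ j y by
    obtain ⟨E, e0, e1⟩ := h
    obtain ⟨M, i, e, m1, m2, m3, m4, m5⟩ := n6 Q E q0 q1 q2 q3 e0 e1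
    exact ⟨M, i, e, m1, m2, m3, m4, m5,
      fun h => fix_of_elem (fun x hx => (m1.1 x hx).2) m2 h m4⟩
  have := hod_tm f0
  refine ⟨img (fun p => pair (fst p) (app f (snd p))) (ExQ B a n f),
    hod_img m3.self _ fun p hp => ?_, fun y z => ?_⟩
  · obtain ⟨x, hx, y, hy, rfl⟩ := mem_prod.1 (ExQ_sub hp)
    rw [fst_pair, snd_pair]
    exact hod_pair ((mem_Lev G.ord).1 hx).2 (hod_app f0 f1 hy)
  · rw [mem_img]
    constructor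
    · rintro ⟨p, hp, e⟩
      obtain ⟨x, -, i, -, rfl⟩ := mem_prod.1 (ExQ_sub hp)
      rw [fst_pair, snd_pair] at e
      obtain ⟨rfl, rfl⟩ := pair_inj.1 e
      obtain ⟨p1, p2, w, w1, w2, w3⟩ := mem_ExQ.1 hp
      exact ⟨p1, f1.app_mem' p2, by rwa [w2, n5 w w1]⟩
    · rintro ⟨p1, p2, p3⟩
      obtain ⟨i, hi⟩ := f2 z p2
      obtain ⟨w, w1, rfl⟩ := G.tr y p1
      refine ⟨pair _ i, mem_ExQ.2 ⟨p1, (pair_mem_prod.1 (f1.1 hi)).1, w, w1, rfl, ?_⟩, ?_⟩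
      · rwa [f1.app_eq hi, ← n5 w w1]
      · rw [fst_pair, snd_pair, f1.app_eq hi]

/-- The system with everything the last step needs. -/
theorem frame {d x t g : ZFSet.{u}} (hd : StronglyCompact d t) (hdt : d ∈ t)
    (hx : x ∈ t) (ht : Regular Set.univ t) (go : g.IsOrdinal) (hk : ℵ₀ ≤ card g)
    (hw : ∀ e ∈ t, card e ^ card g < card t)
    (hs : ∀ l, x ∈ l → l ⊆ succCard t → Regular Set.univ l → StronglyMeasurable Set.univ l) :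
    ∃ B : ZFSet.{u} → ZFSet.{u}, ∀ᶠ a in cf t (unc_of_regular ht), Good t B a ∧
      ((card a).IsStrongLimit → ¬ Regular Set.univ (card a).ord.toZFSet →
      (∀ y, y ⊆ a → card y ≤ card g → ∃ b ∈ a, ∀ z ∈ y, z ∈ b) →
      (∃ l < card a, Few l a (Lev a)) →
      ∃ (N : Set ZFSet.{u}) (j : ZFSet.{u} → ZFSet.{u}), Near t N ∧
        Elem {y | HOD Set.univ y} N j ∧ (∀ y ∈ a, j y = y) ∧ j a = t ∧
        ∀ Q, HOD Set.univ Q → Q ⊆ vonNeumann t.rank → (∃ z, z ∈ Q) →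
          (∀ y ∈ Q, ∀ z ∈ Q, pair y z ∈ Q) →
          (H46M.Cof (card g) a → Q ∈ vonNeumann t.rank ∧ Few (card g) a Q) →
          (¬ H46M.Cof (card g) a → Succ a (Lev a) ∨ Q ∈ vonNeumann t.rank ∧
            ∃ f, HOD Set.univ f ∧ IsFunc a Q f ∧ ∀ x ∈ Q, ∃ r, pair r x ∈ f) →
          ∃ (M : Set ZFSet.{u}) (i e : ZFSet.{u} → ZFSet.{u}), Internal M i ∧ Elem M N e ∧
            (∀ y, HOD Set.univ y → e (i y) = j y) ∧ (∀ z ∈ Q, ∃ w ∈ M, e w = z) ∧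
            (∃ r, HOD Set.univ r ∧ ∀ p, p ∈ r ↔ ∃ w ∈ M, e w ∈ Q ∧ p = pair (e w) w) ∧
            (Q.IsTransitive → ∀ z ∈ Q, z ∈ M ∧ e z = z)) := by
  have hu := unc_of_regular ht
  have hw' : ∀ e ∈ t, card e ^ ℵ₀ < card t := fun e he => by
    by_cases h2 : card e = 0
    · rw [h2]
      exact (zero_power_le _).trans_lt (one_lt_aleph0.trans ht.aleph0_lt)
    · exact (power_le_power_left h2 hk).trans_lt (hw e he)
  have h5 : ∀ a : ZFSet.{u}, a.IsOrdinal → a ∈ succCard a := fun a ha =>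
    mem_succCard.2 ⟨ha, le_rfl⟩
  have h6 : ∀ a : ZFSet.{u}, a.IsOrdinal → x ∈ a → a ⊆ t → ℵ₀ ≤ card a →
      StronglyMeasurable Set.univ (succCard a) := fun a ha h1 h2 h3 =>
    hs _ ((succCard_ord a).mem_trans h1 (h5 a ha)) (fun z hz => mem_succCard.2
      ⟨(mem_succCard.1 hz).1, (mem_succCard.1 hz).2.trans (card_mono h2)⟩) (regular_succCard h3)
  have hst := hs t hx ((succCard_ord t).subset_of_mem (h5 t ht.1)) ht
  obtain ⟨B, hB⟩ := system2 hd hdt hst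
    (card_Lev (h6 t ht.1 hx subset_rfl ht.aleph0_lt.le) (h5 t ht.1)) hw'
  refine ⟨B, ?_⟩
  filter_upwards [hB, realM hk ht hw (hB.mono fun _ h => h.1), ev_above hu hx, ev_mem hu]
    with a ⟨G, g1⟩ g2 g3 hat
  refine ⟨G, fun a1 a2 a3 a4 => ?_⟩
  have au := BdK.unc a3 hk G.ord
  have sl := sl_of a1 a2 au
  obtain ⟨N, j, n1, n2, n3, n4, n5, n6⟩ := g1 au
  refine ⟨N, j, n1, n2, n3, n4, fun Q q0 q1 q2 q3 q4 q5 => ?_⟩
  obtain ⟨n, f, f0, f1, f2, m3⟩ := extM hk go ht hat.1 G a3 sl (g2 a3)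
    (h6 a G.ord g3 G.sub sl.unc.le) a4 q0 q4 q5
  exact clause G n5 n6 q0 q1 q2 q3 f0 f1 f2 m3

theorem mainF {d x t : ZFSet.{u}} {k : Cardinal.{u}} (hd : StronglyCompact d t) (hdt : d ∈ t)
    (hx : x ∈ t) (ht : Regular Set.univ t) (hk : ℵ₀ ≤ k) (hw : ∀ e ∈ t, card e ^ k < card t)
    (hs : ∀ l, x ∈ l → l ⊆ succCard t → Regular Set.univ l → StronglyMeasurable Set.univ l) :
    ∃ c, Club t c ∧ ∀ a ∈ c, (card a).IsStrongLimit →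
      ¬ Regular Set.univ (card a).ord.toZFSet →
      (∀ y, y ⊆ a → card y ≤ k → ∃ b ∈ a, ∀ z ∈ y, z ∈ b) → (∃ l < card a, Few l a (Lev a)) →
      ∃ (N : Set ZFSet.{u}) (j : ZFSet.{u} → ZFSet.{u}), Near t N ∧
        Elem {y | HOD Set.univ y} N j ∧ (∀ y ∈ a, j y = y) ∧ j a = t ∧
        ∀ Q, HOD Set.univ Q → Q ⊆ vonNeumann t.rank → (∃ z, z ∈ Q) →
          (∀ y ∈ Q, ∀ z ∈ Q, pair y z ∈ Q) →
          (H46M.Cof k a → Q ∈ vonNeumann t.rank ∧ Few k a Q) →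
          (¬ H46M.Cof k a → Succ a (Lev a) ∨ Q ∈ vonNeumann t.rank ∧
            ∃ f, HOD Set.univ f ∧ IsFunc a Q f ∧ ∀ x ∈ Q, ∃ r, pair r x ∈ f) →
          ∃ (M : Set ZFSet.{u}) (i e : ZFSet.{u} → ZFSet.{u}), Internal M i ∧ Elem M N e ∧
            (∀ y, HOD Set.univ y → e (i y) = j y) ∧ (∀ z ∈ Q, ∃ w ∈ M, e w = z) ∧
            (∃ r, HOD Set.univ r ∧ ∀ p, p ∈ r ↔ ∃ w ∈ M, e w ∈ Q ∧ p = pair (e w) w) ∧
            (Q.IsTransitive → ∀ z ∈ Q, z ∈ M ∧ e z = z) := by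
  obtain ⟨g, go, rfl⟩ : ∃ g : ZFSet.{u}, g.IsOrdinal ∧ card g = k :=
    ⟨_, isOrdinal_toZFSet _, card_ord' k⟩
  obtain ⟨B, hB⟩ := frame hd hdt hx ht go hk hw hs
  obtain ⟨c, c1, c2⟩ := (ev_iff (unc_of_regular ht)).1 hB
  exact ⟨c, c1, fun a ha => (not_not.1 fun h => c2 a (mem_sep.2 ⟨c1.1 ha, h⟩) ha).2⟩

end Pool.Agent.MP_ecfd11_lc.H3G
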