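import Pool.Agent.MP_ecfd11_lc.H3G.Cls

/-!
The system of embeddings and their factors.
-/

set_option synthInstance.maxSize 4000

namespace Pool.Agent.MP_ecfd11_lc.H3G

open Pool.Agent.MP_ecfd11_lc.H20 Pool.Agent.MP_ecfd11_lc.H13X Pool.Agent.MP_ecfd11_lc.H3U
  Pool.Agent.MP_ecfd11_lc.H3E Pool.Agent.MP_ecfd11_lc.H65S

universe u

open ZFSet Cardinal Function Filter

/-- `j` factors through an ultrapower of HOD by its extender with support `Q`. -/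
def Fac (t a : ZFSet.{u}) (N : Set ZFSet.{u}) (j : ZFSet.{u} → ZFSet.{u}) : Prop :=
  ∀ Q E : ZFSet.{u}, HOD Set.univ Q → Q ⊆ vonNeumann t.rank → (∃ z, z ∈ Q) →
    (∀ x ∈ Q, ∀ y ∈ Q, pair x y ∈ Q) → HOD Set.univ E →
    (∀ y z, pair y z ∈ E ↔ y ∈ Lev a ∧ z ∈ Q ∧ z ∈ j y) →
    ∃ (M : Set ZFSet.{u}) (i k : ZFSet.{u} → ZFSet.{u}), Internal M i ∧ Elem M N k ∧
      (∀ x, HOD Set.univ x → k (i x) = j x) ∧ (∀ z ∈ Q, ∃ w ∈ M, k w = z) ∧
      ∃ r, HOD Set.univ r ∧ ∀ p, p ∈ r ↔ ∃ w ∈ M, k w ∈ Q ∧ p = pair (k w) w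

theorem system2 {d t : ZFSet.{u}} (hd : StronglyCompact d t) (hdt : d ∈ t)
    (hs : StronglyMeasurable Set.univ t) (hc : card (Lev t) ≤ card t)
    (hw : ∀ e ∈ t, card e ^ ℵ₀ < card t) :
    ∃ B : ZFSet.{u} → ZFSet.{u}, ∀ᶠ L in cf t (unc_of_regular hs.1), Good t B L ∧ (Unc L →
      ∃ (N : Set ZFSet.{u}) (j : ZFSet.{u} → ZFSet.{u}), Near t N ∧
        Elem {x | HOD Set.univ x} N j ∧ (∀ y ∈ L, j y = y) ∧ j L = t ∧
        (∀ x ∈ L, j (B x ∩ vC Set.univ L) = B x) ∧ Fac t L N j) := by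
  have ht := hs.1
  have hu := unc_of_regular ht
  have ord : ∀ x : ZFSet.{u}, x.IsOrdinal → x ⊆ t → x ∈ Lev t := fun x hx h => (mem_Lev ht.1).2
    ⟨fun z hz => (mem_vC_ord ht.1).2 (rank_lt_of_mem (h hz)), hod_ord hx⟩
  obtain ⟨B, b1, b2⟩ : ∃ B : ZFSet.{u} → ZFSet.{u}, (∀ x ∈ t, B x ∈ Lev t) ∧
      ∀ A ∈ Lev t, ∃ x ∈ t, B x = A := by
    obtain ⟨F, hF⟩ := exists_surj_of_card_le hc
    classical
    refine ⟨fun x => if F x ∈ Lev t then F x else t, fun x _ => ?_, fun A hA => ?_⟩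
    · dsimp only
      split_ifs with h
      exacts [h, ord t ht.1 subset_rfl]
    · obtain ⟨x, hx, rfl⟩ := hF A hA
      exact ⟨x, hx, if_pos hA⟩
  have b3 : ∀ x ∈ t, B x ⊆ vC Set.univ t := fun x hx => ((mem_Lev ht.1).1 (b1 x hx)).1
  have hT := trace_all ht hd.1 B b3 (cover hd hdt hs fun S h1 => trace' hd hdt hs h1 B b1 b2)
  have h1 : ∀ x : ZFSet.{u}, x.IsOrdinal → x ⊆ t →
      ∀ᶠ L in cf t hu, ∃ y ∈ L, B y = x := fun x h1 h2 => by
    obtain ⟨y, y1, y2⟩ := b2 x (ord x h1 h2)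
    filter_upwards [ev_above hu y1] with L h using ⟨y, h, y2⟩
  have s1 : ∀ᶠ L in cf t hu, ∀ x ∈ L, ∀ i ∈ L, (∃ z ∈ t, pair i z ∈ B x) →
      ∃ z ∈ L, pair i z ∈ B x := ev_diag ht fun x _ => ev_diag ht fun i _ => by
    by_cases h : ∃ z ∈ t, pair i z ∈ B x
    · obtain ⟨z, z1, z2⟩ := h
      filter_upwards [ev_above hu z1] with L h _ using ⟨z, h, z2⟩
    · exact Eventually.of_forall fun _ h' => absurd h' h
  have s2 : ∀ᶠ L in cf t hu, ∀ w ∈ L, ∀ x ∈ L, ∀ i ∈ L,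
      (∀ z ∈ vC Set.univ L, z ∈ B x ↔ pair i z ∈ B w) → ∀ z, z ∈ B x ↔ pair i z ∈ B w :=
    ev_diag ht fun w hw => ev_diag ht fun x hx => ev_diag ht fun i _ => by
      by_cases h : ∀ z, z ∈ B x ↔ pair i z ∈ B w
      · exact Eventually.of_forall fun _ _ => h
      obtain ⟨z, hz⟩ := not_forall.1 h
      have h2 : z ∈ vC Set.univ t := by
        by_cases h2 : z ∈ B x
        exacts [b3 _ hx h2, ((pair_vC (x := i) ht.1 fun b hb => hu.succ hb).1
          (b3 _ hw (by tauto))).2]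
      filter_upwards [ev_seq ht (fun _ => z) fun _ => h2] with L l1 h3 using
        absurd (h3 z (l1 0)) hz
  have h2 : ∀ a A : ZFSet.{u}, ∃ x, (∃ x ∈ a, A = B x ∩ vC Set.univ a) →
      x ∈ a ∧ A = B x ∩ vC Set.univ a := fun a A => by
    by_cases e : ∃ x ∈ a, A = B x ∩ vC Set.univ a
    exacts [e.imp fun _ h _ => h, ⟨∅, fun h => absurd h e⟩]
  choose X hX using h2
  refine ⟨B, ?_⟩
  filter_upwards [ev_thread ht hw B b3, ev_lim hu ht, hT, h1 t ht.1 subset_rfl,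
    ev_diag (p := fun x L => ∃ y ∈ L, B y = x) ht
      fun x hx => h1 x (ht.1.mem hx) (ht.1.subset_of_mem hx), s1, s2, ev_mem hu, ev_nat hu
      (p := fun n L => ∀ φ, enc φ = n → ∀ v : ℕ → ZFSet.{u}, (∀ i, v i ∈ L) →
        (Sat (Lev L) φ (fun i => B (v i) ∩ vC Set.univ L) ↔ Sat (Lev t) φ fun i => B (v i)))
      fun n => by
        by_cases e : ∃ φ, enc φ = n
        · obtain ⟨φ, rfl⟩ := e
          filter_upwards [ev_diag_fin ht (fv φ) _ (fun v w L e h => by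
            rwa [← sat_congr φ (v := fun i => B (v i) ∩ vC Set.univ L)
              (w := fun i => B (w i) ∩ vC Set.univ L) fun i hi => by simp only [e i hi],
              ← sat_congr φ (v := fun i => B (v i)) (w := fun i => B (w i))
                fun i hi => by simp only [e i hi]])
            (los ht B b1 b2 hT φ)] with L h ψ e
          rwa [enc_inj ψ φ e]
        · exact Eventually.of_forall fun _ φ h => absurd ⟨φ, h⟩ e]
    with a th la l1 ⟨y, y1, y2⟩ l2 l4 l5 hat l3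
  replace hat := hat.1
  have ao := ht.1.mem hat
  have s0 : ∀ x ∈ a, ∀ y ∈ a, B x ∩ vC Set.univ a = B y ∩ vC Set.univ a → B x = B y :=
    fun x hx y hy e => (l3 _ (.eq 0 1) rfl (cons x fun _ => y)
      fun i => by cases i; exacts [hx, hy]).1 e
  have h3 : ∀ x ∈ a, B (X a (B x ∩ vC Set.univ a)) = B x := fun x hx => by
    obtain ⟨x1, x2⟩ := hX a _ ⟨x, hx, rfl⟩
    exact s0 _ x1 _ hx x2.symm
  have h5 : Ext a t fun A => B (X a A) := by
    refine ⟨fun x hx => b1 _ (ht.1.mem_trans (hX a x (l1 x hx)).1 hat), fun φ v hv => ?_,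
      fun x hx => ?_, ?_⟩
    · rw [← l3 _ φ rfl (fun i => X a (v i)) fun i => (hX a _ (l1 _ (hv i))).1]
      exact sat_congr φ fun i _ => (hX a _ (l1 _ (hv i))).2
    · obtain ⟨z, z1, z2⟩ := l2 x hx
      have := h3 z z1
      rwa [z2, show x ∩ vC Set.univ a = x from ZFSet.ext fun w => mem_inter.trans
        (and_iff_left_of_imp fun hw => (mem_vC_ord ao).2
          (rank_lt_of_mem (ao.mem_trans hw hx)))] at this
    · have := h3 y y1
      rwa [y2, show t ∩ vC Set.univ a = a from ZFSet.ext fun w => mem_inter.trans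
        ⟨fun hw => ((ht.1.mem hw.1).rank_lt_iff_mem ao).1 ((mem_vC_ord ao).1 hw.2),
          fun hw => ⟨ht.1.mem_trans hw hat, (mem_vC_ord ao).2 (rank_lt_of_mem hw)⟩⟩] at this
  refine ⟨⟨ao, ht.1.subset_of_mem hat, la, fun x hx =>
    ((mem_Lev ht.1).1 (b1 x (ht.1.mem_trans hx hat))).2, l1, s0, l4, l5⟩, fun au => ?_⟩
  obtain ⟨N, j, n1, n2, n4, n5⟩ := exists_class2 h5 ht.1 hat la (fun b hb => hu.succ hb)
    fun A w h => by
      obtain ⟨z, z1, z2⟩ := th au (fun k => X a (A k)) w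
        fun k => ⟨(hX a _ (l1 _ (h k).1)).1, (h k).2⟩
      exact ⟨z, fun k => (hX a _ (l1 _ (h k).1)).2 ▸ z1 k, z2⟩
  have oa : ∀ x : ZFSet.{u}, x.IsOrdinal → x ⊆ a → x ∈ Lev a := fun x hx h => (mem_Lev ao).2
    ⟨fun z hz => H3E.mem_vC ao (h hz), hod_ord hx⟩
  exact ⟨N, j, n1, n2,
    fun y hy => (n4 y (oa y (ao.mem hy) (ao.subset_of_mem hy))).trans (h5.2.2.1 y hy),
    (n4 a (oa a ao subset_rfl)).trans h5.2.2.2, fun x hx =>
      (n4 _ (inter_Lev ht.1 (b1 x (ht.1.mem_trans hx hat)) ao)).trans (h3 x hx), n5⟩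

end Pool.Agent.MP_ecfd11_lc.H3G
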