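import Pool.Agent.MP_ecfd11_lc.H3G.Base

/-!
The ultrapower with generators in a set.
-/

set_option synthInstance.maxSize 4000

namespace Pool.Agent.MP_ecfd11_lc.H3G

open Pool.Agent.MP_ecfd11_lc.H20 Pool.Agent.MP_ecfd11_lc.H13X Pool.Agent.MP_ecfd11_lc.H3U
  Pool.Agent.MP_ecfd11_lc.H3E Pool.Agent.MP_ecfd11_lc.H65S

universe u

open ZFSet Cardinal Function Filter

theorem ult_on (F : Filter (ZFSet.{u} → ZFSet.{u})) [F.NeBot] [CountableInterFilter F]
    {a Q : ZFSet.{u}} (h : Sup F a Q) : ∃ c, Col F Q c := by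
  classical
  obtain ⟨ha, -, -, hc, f2, f3, fd⟩ := h
  have hD := tm_low ha
  have f6 : ∀ (n : ℕ) (x : ℕ → ZFSet.{u}), (∀ i, x i ∈ Q) →
      ∃ l ∈ Q, ∀ᶠ h in F, ∀ i < n, asg (h l) i = h (x i) := fun n => by
    induction n with
    | zero => exact fun x hx => ⟨_, hx 0, .of_forall fun _ _ h => absurd h (Nat.not_lt_zero _)⟩
    | succ n ih =>
      intro x hx
      obtain ⟨l, l1, l2⟩ := ih (fun i => x (i + 1)) fun _ => hx _
      refine ⟨_, hc _ (hx 0) l l1, ?_⟩
      filter_upwards [l2, f2 _ (hx 0) l l1] with h h1 h2 i hi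
      rw [h2, asg_pair]
      cases i with
      | zero => rfl
      | succ i => exact h1 i (Nat.lt_of_succ_lt_succ hi)
  have g1 : ∀ p ∈ Gen F Q, ∀ᶠ h in F, HOD Set.univ (p h) := fun p hp => by
    obtain ⟨f, x, -, -, h, rfl⟩ := hp
    exact h
  have g2 : ∀ (n : ℕ) (p : ℕ → (ZFSet.{u} → ZFSet.{u}) → ZFSet.{u}), (∀ i, p i ∈ Gen F Q) →
      ∃ (f : ℕ → ZFSet.{u} → ZFSet.{u}) (l : ZFSet.{u}),
        (∀ i, Tm Set.univ On fun v => f i (v 0)) ∧ l ∈ Q ∧
          ∀ᶠ h in F, ∀ i < n, p i h = f i (h l) := fun n p hp => by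
    choose f x h1 h2 _ h3 using fun i => hp i
    obtain ⟨l, l1, l2⟩ := f6 n x h2
    refine ⟨fun i y => f i (asg y i), l, fun i => ?_, l1, ?_⟩
    · have := h1 i
      exact Tm.one (f i) _ (hs := tm_asg i)
    · filter_upwards [l2] with h h4 i hi
      rw [h3 i, h4 i hi]
  obtain ⟨c, c1, c2⟩ := ultrapower F (H := {x | HOD Set.univ x}) (fun x hx y hy => hx.mem hy)
    (Gen F Q) g1
    (fun φ p hp => by
      obtain ⟨f, l, h1, h2, h3⟩ := g2 (fv φ) p hp
      have h4 : Df Set.univ On fun v => Sat {x | HOD Set.univ x} φ fun n => f n (v 0) :=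
        Df.sat φ (fun _ => {x | HOD Set.univ x}) (Df.hod fun v => v 0)
          (fun _ _ => Set.subset_univ _) (fun n v => f n (v 0)) h1
      have h5 := lev_of_sub ha (A := (low a).sep fun y => Sat {x | HOD Set.univ x} φ
        fun n => f n y) sep_subset (Tm.sep _ _ (h := h4))
      rcases fd _ h5 l h2 with h6 | h6
      · left
        filter_upwards [h3, h6] with h h7 h8 using (sat_congr φ h7).2 (mem_sep.1 h8).2
      · right
        filter_upwards [h3, h6, f3 l h2] with h h7 h8 h9 h10 using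
          h8 (mem_sep.2 ⟨h9, (sat_congr φ h7).1 h10⟩))
    (fun φ p hp => by
      obtain ⟨f, l, h1, h2, h3⟩ := g2 (fv φ) p hp
      obtain ⟨R, hR⟩ : ∃ R : ZFSet.{u} → ZFSet.{u} → Prop,
        R = fun z y => Sat {x | HOD Set.univ x} φ (cons z fun n => f n y) := ⟨_, rfl⟩
      have : Df Set.univ On fun v => R (v 0) (v 1) := hR ▸ df_sat φ f h1
      have := Df.two (C := Set.univ) (A := On) R
      obtain ⟨k, k1, k2⟩ := od_choice (C := Set.univ) (low a)
        (fun y z => HOD Set.univ z ∧ (R z y → ∀ w, HOD Set.univ w → R w y)) fun y _ => by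
          by_cases h : ∀ w, HOD Set.univ w → R w y
          · exact ⟨∅, (hod_ord isOrdinal_empty).self, hod_ord isOrdinal_empty, fun _ => h⟩
          · obtain ⟨w, h⟩ := not_forall.1 h
            obtain ⟨h4, h5⟩ := Classical.not_imp.1 h
            exact ⟨w, h4.self, h4, fun h6 => absurd h6 h5⟩
      refine ⟨fun h => k (h l), ⟨k, l, k1, h2,
        (f3 l h2).mono fun h h4 => (k2 _ h4 trivial).1, rfl⟩, ?_⟩
      filter_upwards [h3, f3 l h2] with h h4 h5 h6 z hz
      have h7 : ∀ z, R z (h l) ↔ Sat {x | HOD Set.univ x} φ (cons z fun n => p n h) := fun z => by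
        rw [hR]
        refine sat_congr φ fun i hi => ?_
        cases i with
        | zero => rfl
        | succ i => exact (h4 i (Nat.lt_of_succ_lt hi)).symm
      exact (h7 z).1 ((k2 _ h5 trivial).2 ((h7 _).2 h6) z hz))
    (fun p hp => by
      obtain ⟨f, x, h1, h2, -, rfl⟩ := hp
      refine ⟨prod Q (powerset (prod (low a) (⋃₀ img f (low a)))),
        fun z h => app (snd z) (h (fst z)), fun q hq h3 => ?_⟩
      have h0 := g1 q hq
      obtain ⟨g, y, h4, h5, -, rfl⟩ := hq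
      have := Tm.one (C := Set.univ) (A := On) f
      have := Tm.one (C := Set.univ) (A := On) g
      have h6 : ∀ᶠ h in F,
          app (gr g ((low a).sep fun l => g l ∈ (⋃₀ img f (low a) : ZFSet.{u}))) (h y) = g (h y) := by
        filter_upwards [h3, f3 x h2, f3 y h5] with h h6 h7 h8 using
          app_gr (mem_sep.2 ⟨h8, mem_sUnion.2 ⟨_, mem_img.2 ⟨_, h7, rfl⟩, h6⟩⟩)
      refine ⟨pair y (gr g ((low a).sep fun l => g l ∈ (⋃₀ img f (low a) : ZFSet.{u}))),
        pair_mem_prod.2 ⟨h5, mem_powerset.2 fun z hz => ?_⟩, ?_, ?_⟩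
      · obtain ⟨l, hl, rfl⟩ := mem_img.1 hz
        exact pair_mem_prod.2 (mem_sep.1 hl)
      · refine ⟨app (gr g ((low a).sep fun l => g l ∈ (⋃₀ img f (low a) : ZFSet.{u}))),
          y, inferInstance, h5, ?_, by simp only [fst_pair, snd_pair]⟩
        filter_upwards [h0, h6] with h h7 h8 using h8 ▸ h7
      · simpa only [fst_pair, snd_pair] using h6)
  exact ⟨c, c1, c2⟩

end Pool.Agent.MP_ecfd11_lc.H3G
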